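import Mathlib
import Pool.Agent.W295.Om.Alt

/-!
# Sandpile groups of Cayley graphs of F_2^r: definitions and characters
-/

set_option autoImplicit false
set_option linter.unusedSectionVars false

namespace Pool.Agent.Q209.SP

open Module

/-- the group `F_2^r` -/
abbrev V (r : ℕ) := Fin r → ZMod 2

/-- `mu_u`: the number of indices `i` with `v_i = u` -/
def mult {r n : ℕ} (M : Fin n → V r) (u : V r) : ℕ :=
  (Finset.univ.filter fun i => M i = u).card

/-- The conditions on the list `M = (v_1, ..., v_n)`: the `v_i` are nonzero, span `F_2^r`, and the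
gcd of the multiplicities is `1`. -/
def Adm {r n : ℕ} (M : Fin n → V r) : Prop :=
  (∀ i, M i ≠ 0) ∧ Submodule.span (ZMod 2) (Set.range M) = ⊤ ∧ Finset.univ.gcd (mult M) = 1

/-- the Laplacian of the Cayley multigraph -/
def lap {r n : ℕ} (M : Fin n → V r) : Matrix (V r) (V r) ℤ :=
  Matrix.of fun w w' => if w = w' then (n : ℤ)
    else -((Finset.univ.filter fun i => w + M i = w').card : ℤ)

/-- the cokernel of the Laplacian -/
abbrev Coker {r n : ℕ} (M : Fin n → V r) : Type :=
  (V r → ℤ) ⧸ LinearMap.range (lap M).mulVecLin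

/-- the sandpile group `K(G)`: the torsion part of the cokernel of the Laplacian -/
abbrev Sand {r n : ℕ} (M : Fin n → V r) : Type := Submodule.torsion ℤ (Coker M)

/-- `d(M)`: the dimension over `F_2` of `K(G) ⊗ Z/2` -/
noncomputable def dM {r n : ℕ} (M : Fin n → V r) : ℕ :=
  finrank (ZMod 2) (TensorProduct ℤ (ZMod 2) (Sand M))

/-- the character `(-1)^(u . w)` -/
def ch {r : ℕ} (u w : V r) : ℤ := if (∑ j, u j * w j) = 0 then 1 else -1

/-- the eigenvalue `lambda_u = n - sum_i (-1)^(u . v_i)` of the Laplacian -/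
def lam {r n : ℕ} (M : Fin n → V r) (u : V r) : ℤ := n - ∑ i, ch u (M i)

/-! ### characters -/

lemma zmod2_cases (a : ZMod 2) : a = 0 ∨ a = 1 := by
  revert a; decide

lemma two_ne (a : ZMod 2) : a + a = 0 := by
  revert a; decide

lemma vadd_self {r : ℕ} (u : V r) : u + u = 0 := by
  funext j; exact two_ne _

lemma ch_add_right {r : ℕ} (u w w' : V r) : ch u (w + w') = ch u w * ch u w' := by
  unfold ch
  have h : (∑ j, u j * (w + w') j) = (∑ j, u j * w j) + ∑ j, u j * w' j := by
    rw [← Finset.sum_add_distrib]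
    exact Finset.sum_congr rfl fun j _ => by rw [Pi.add_apply, mul_add]
  rw [h]
  generalize (∑ j, u j * w j) = a
  generalize (∑ j, u j * w' j) = b
  rcases zmod2_cases a with rfl | rfl <;> rcases zmod2_cases b with rfl | rfl <;> decide

lemma ch_comm {r : ℕ} (u w : V r) : ch u w = ch w u := by
  unfold ch
  rw [Finset.sum_congr rfl fun j _ => mul_comm (u j) (w j)]

lemma ch_add_left {r : ℕ} (u u' w : V r) : ch (u + u') w = ch u w * ch u' w := by
  rw [ch_comm, ch_add_right, ch_comm w u, ch_comm w u']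

lemma ch_zero_left {r : ℕ} (w : V r) : ch 0 w = 1 := by
  unfold ch; simp

lemma ch_zero_right {r : ℕ} (w : V r) : ch w 0 = 1 := by
  unfold ch; simp

lemma ch_sq {r : ℕ} (u w : V r) : ch u w = 1 ∨ ch u w = -1 := by
  unfold ch; split_ifs <;> simp

/-- some unit vector is not orthogonal to a nonzero vector -/
lemma exists_flip {r : ℕ} {w : V r} (hw : w ≠ 0) : ∃ u : V r, ch u w = -1 := by
  obtain ⟨j, hj⟩ := Function.ne_iff.1 hw
  refine ⟨Pi.single j 1, ?_⟩
  unfold ch
  rw [Finset.sum_eq_single j]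
  · rw [Pi.single_eq_same, one_mul]
    exact if_neg hj
  · intro b _ hb
    rw [Pi.single_eq_of_ne hb, zero_mul]
  · intro h; exact absurd (Finset.mem_univ _) h

lemma card_V (r : ℕ) : Fintype.card (V r) = 2 ^ r := by
  rw [Fintype.card_fun, ZMod.card, Fintype.card_fin]

lemma sum_ch {r : ℕ} (w : V r) : ∑ u, ch u w = if w = 0 then (2 : ℤ) ^ r else 0 := by
  split_ifs with h
  · subst h
    simp only [ch_zero_right, Finset.sum_const, Finset.card_univ, card_V]
    simp
  · obtain ⟨u0, hu0⟩ := exists_flip h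
    have h1 : ∑ u, ch u w = ∑ u, ch (u + u0) w :=
      (Equiv.sum_comp (Equiv.addRight u0) fun u => ch u w).symm
    have h2 : ∑ u, ch (u + u0) w = - ∑ u, ch u w := by
      rw [← Finset.sum_neg_distrib]
      exact Finset.sum_congr rfl fun u _ => by rw [ch_add_left, hu0]; ring
    linarith

lemma sum_ch_mul {r : ℕ} (w w' : V r) :
    ∑ u, ch u w * ch u w' = if w = w' then (2 : ℤ) ^ r else 0 := by
  have h1 : ∑ u, ch u w * ch u w' = ∑ u, ch u (w + w') :=
    Finset.sum_congr rfl fun u _ => (ch_add_right u w w').symm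
  rw [h1, sum_ch]
  have h2 : w + w' = 0 ↔ w = w' := by
    constructor
    · intro h
      have h3 : w + w' + w' = w' := by rw [h, zero_add]
      rwa [add_assoc, vadd_self, add_zero] at h3
    · rintro rfl; exact vadd_self _
  simp only [h2]

/-! ### the Laplacian -/

variable {r n : ℕ} {M : Fin n → V r}

lemma lap_apply (hM : ∀ i, M i ≠ 0) (w w' : V r) :
    lap M w w' = (if w = w' then (n : ℤ) else 0) - ∑ i, if w + M i = w' then (1 : ℤ) else 0 := by
  unfold lap
  rw [Matrix.of_apply]
  have hc : ((Finset.univ.filter fun i => w + M i = w').card : ℤ) =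
      ∑ i, if w + M i = w' then (1 : ℤ) else 0 := by
    rw [Finset.card_filter]; push_cast; rfl
  split_ifs with h
  · subst h
    have : ∀ i ∈ (Finset.univ : Finset (Fin n)), (if w + M i = w then (1 : ℤ) else 0) = 0 := by
      intro i _
      rw [if_neg]
      intro h
      exact hM i (by simpa using h)
    rw [Finset.sum_eq_zero this, sub_zero]
  · rw [hc, zero_sub]

lemma lap_mulVec (hM : ∀ i, M i ≠ 0) (x : V r → ℤ) (w : V r) :
    (lap M).mulVec x w = ∑ i, (x w - x (w + M i)) := by
  have h1 : (lap M).mulVec x w = ∑ w', lap M w w' * x w' := rfl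
  rw [h1, Finset.sum_congr rfl fun w' _ => by rw [lap_apply hM, sub_mul, ite_mul, zero_mul,
    Finset.sum_mul]]
  rw [Finset.sum_sub_distrib, Finset.sum_ite_eq Finset.univ w, if_pos (Finset.mem_univ _),
    Finset.sum_comm, Finset.sum_sub_distrib, Finset.sum_const, Finset.card_univ, Fintype.card_fin,
    nsmul_eq_mul]
  congr 1
  refine Finset.sum_congr rfl fun i _ => ?_
  simp only [ite_mul, one_mul, zero_mul, Finset.sum_ite_eq, Finset.mem_univ, if_true]

lemma lap_ch (hM : ∀ i, M i ≠ 0) (u : V r) :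
    (lap M).mulVec (ch u) = lam M u • ch u := by
  funext w
  rw [lap_mulVec hM, Pi.smul_apply, smul_eq_mul]
  unfold lam
  simp only [ch_add_right]
  rw [Finset.sum_sub_distrib, Finset.sum_const, Finset.card_univ, Fintype.card_fin, nsmul_eq_mul,
    ← Finset.mul_sum]
  ring

/-- the degree map -/
def deg (r : ℕ) : (V r → ℤ) →ₗ[ℤ] ℤ := ∑ w, LinearMap.proj w

lemma deg_apply (x : V r → ℤ) : deg r x = ∑ w, x w := by
  unfold deg
  rw [LinearMap.sum_apply]
  rfl

lemma deg_lap (hM : ∀ i, M i ≠ 0) (x : V r → ℤ) : deg r ((lap M).mulVec x) = 0 := by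
  rw [deg_apply, Finset.sum_congr rfl fun w _ => lap_mulVec hM x w, Finset.sum_comm]
  refine Finset.sum_eq_zero fun i _ => ?_
  rw [Finset.sum_sub_distrib, sub_eq_zero]
  exact (Equiv.sum_comp (Equiv.addRight (M i)) x).symm

lemma lam_zero : lam M 0 = 0 := by
  unfold lam
  simp only [ch_zero_left, Finset.sum_const, Finset.card_univ, Fintype.card_fin]
  simp

lemma lam_ne_zero (hspan : Submodule.span (ZMod 2) (Set.range M) = ⊤) {u : V r} (hu : u ≠ 0) :
    lam M u ≠ 0 := by
  have h0 : ∃ i, ch u (M i) = -1 := by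
    by_contra hcon
    push Not at hcon
    have hdot : ∀ i, ∑ j, u j * M i j = 0 := by
      intro i
      by_contra h
      exact hcon i (by unfold ch; rw [if_neg h])
    let φ : V r →ₗ[ZMod 2] ZMod 2 := ∑ j, u j • LinearMap.proj j
    have hφ : ∀ w, φ w = ∑ j, u j * w j := by
      intro w
      simp only [φ, LinearMap.sum_apply, LinearMap.smul_apply, LinearMap.proj_apply, smul_eq_mul]
    have hle : Submodule.span (ZMod 2) (Set.range M) ≤ LinearMap.ker φ := by
      rw [Submodule.span_le]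
      rintro _ ⟨i, rfl⟩
      change φ (M i) = 0
      rw [hφ, hdot]
    rw [hspan] at hle
    obtain ⟨w, hw⟩ := exists_flip hu
    have h2 : φ w = 0 := hle Submodule.mem_top
    rw [hφ] at h2
    rw [ch_comm] at hw
    unfold ch at hw
    rw [if_pos h2] at hw
    norm_num at hw
  obtain ⟨i0, hi0⟩ := h0
  have hle : ∑ i, ch u (M i) < ∑ _i : Fin n, (1 : ℤ) := by
    refine Finset.sum_lt_sum (fun i _ => ?_) ⟨i0, Finset.mem_univ _, by rw [hi0]; norm_num⟩
    rcases ch_sq u (M i) with h | h <;> rw [h]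
    norm_num
  rw [Finset.sum_const, Finset.card_univ, Fintype.card_fin, nsmul_eq_mul, mul_one] at hle
  unfold lam
  linarith

/-- Fourier inversion on `F_2^r` -/
lemma inversion (x : V r → ℤ) (w : V r) :
    ∑ u, (∑ w', x w' * ch u w') * ch u w = 2 ^ r * x w := by
  have h1 : ∀ u, (∑ w', x w' * ch u w') * ch u w = ∑ w', x w' * (ch u w' * ch u w) := by
    intro u
    rw [Finset.sum_mul]
    exact Finset.sum_congr rfl fun w' _ => by ring
  rw [Finset.sum_congr rfl fun u _ => h1 u, Finset.sum_comm]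
  rw [Finset.sum_congr rfl fun w' _ => by rw [← Finset.mul_sum, sum_ch_mul]]
  simp only [mul_ite, mul_zero]
  rw [Finset.sum_ite_eq' Finset.univ w, if_pos (Finset.mem_univ _)]
  ring

/-- every vector of degree `0` is torsion modulo the image of the Laplacian -/
lemma torsion_of_deg (hM : ∀ i, M i ≠ 0) (hspan : Submodule.span (ZMod 2) (Set.range M) = ⊤) :
    ∃ N : ℤ, N ≠ 0 ∧ ∀ x : V r → ℤ, deg r x = 0 → ∃ y, (lap M).mulVec y = N • x := by
  classical
  let S : Finset (V r) := Finset.univ.erase 0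
  let P : ℤ := ∏ u ∈ S, lam M u
  have hP : P ≠ 0 := by
    refine Finset.prod_ne_zero_iff.2 fun u hu => ?_
    exact lam_ne_zero hspan (Finset.ne_of_mem_erase hu)
  refine ⟨P * 2 ^ r, mul_ne_zero hP (pow_ne_zero _ two_ne_zero), fun x hx => ?_⟩
  let c : V r → ℤ := fun u => ∑ w', x w' * ch u w'
  have hc0 : c 0 = 0 := by
    simp only [c, ch_zero_left, mul_one]
    rw [← deg_apply, hx]
  refine ⟨∑ u ∈ S, (c u * ∏ u' ∈ S.erase u, lam M u') • ch u, ?_⟩
  have hlin : (lap M).mulVec (∑ u ∈ S, (c u * ∏ u' ∈ S.erase u, lam M u') • ch u) =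
      ∑ u ∈ S, (c u * ∏ u' ∈ S.erase u, lam M u') • (lap M).mulVec (ch u) := by
    have := map_sum (lap M).mulVecLin (fun u => (c u * ∏ u' ∈ S.erase u, lam M u') • ch u) S
    simp only [Matrix.mulVecLin_apply, Matrix.mulVec_smul] at this
    exact this
  rw [hlin]
  funext w
  rw [Finset.sum_apply, Pi.smul_apply, smul_eq_mul]
  have h1 : ∀ u ∈ S, ((c u * ∏ u' ∈ S.erase u, lam M u') • (lap M).mulVec (ch u)) w =
      P * (c u * ch u w) := by
    intro u hu
    rw [lap_ch hM, Pi.smul_apply, Pi.smul_apply, smul_eq_mul, smul_eq_mul]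
    have h2 : (∏ u' ∈ S.erase u, lam M u') * lam M u = P := Finset.prod_erase_mul S _ hu
    rw [← h2]; ring
  rw [Finset.sum_congr rfl h1, ← Finset.mul_sum]
  have h3 : ∑ u ∈ S, c u * ch u w = ∑ u, c u * ch u w := by
    rw [← Finset.add_sum_erase Finset.univ (fun u => c u * ch u w) (Finset.mem_univ 0), hc0,
      zero_mul, zero_add]
  rw [h3, inversion]
  ring

end Pool.Agent.Q209.SP
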