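import Mathlib
import Pool.Agent.Q209.SP.Defs

/-!
# The 2-rank of the sandpile group through the rank of the Laplacian modulo 2
-/

set_option autoImplicit false
set_option linter.unusedSectionVars false

namespace Pool.Agent.Q209.SP

open Module TensorProduct

variable {r n : ℕ} {M : Fin n → V r}

/-- the degree on the cokernel -/
noncomputable def degb (hM : ∀ i, M i ≠ 0) : Coker M →ₗ[ℤ] ℤ :=
  Submodule.liftQ _ (deg r) (by
    rintro _ ⟨x, rfl⟩
    rw [LinearMap.mem_ker, Matrix.mulVecLin_apply]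
    exact deg_lap hM x)

lemma degb_mk (hM : ∀ i, M i ≠ 0) (x : V r → ℤ) :
    degb hM (Submodule.Quotient.mk x) = deg r x := rfl

lemma mem_tors (hM : ∀ i, M i ≠ 0) (hspan : Submodule.span (ZMod 2) (Set.range M) = ⊤)
    (x : Coker M) : x ∈ Submodule.torsion ℤ (Coker M) ↔ degb hM x = 0 := by
  constructor
  · rintro ⟨⟨a, ha⟩, hax⟩
    have h1 : a • x = 0 := hax
    have h2 : degb hM (a • x) = 0 := by rw [h1, map_zero]
    rw [map_smul, smul_eq_mul] at h2
    rcases mul_eq_zero.1 h2 with h | h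
    · exact absurd h (nonZeroDivisors.ne_zero ha)
    · exact h
  · intro hx
    obtain ⟨y, rfl⟩ := Submodule.Quotient.mk_surjective _ x
    rw [degb_mk] at hx
    obtain ⟨N, hN, hN'⟩ := torsion_of_deg hM hspan
    obtain ⟨z, hz⟩ := hN' y hx
    refine ⟨⟨N, mem_nonZeroDivisors_of_ne_zero hN⟩, ?_⟩
    change N • (Submodule.Quotient.mk y : Coker M) = 0
    rw [← Submodule.Quotient.mk_smul, Submodule.Quotient.mk_eq_zero]
    exact ⟨z, by rw [Matrix.mulVecLin_apply, hz]⟩

/-- a point of degree `1` -/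
noncomputable def pt (M : Fin n → V r) : Coker M := Submodule.Quotient.mk (Pi.single 0 1)

lemma degb_pt (hM : ∀ i, M i ≠ 0) : degb hM (pt M) = 1 := by
  unfold pt
  rw [degb_mk, deg_apply, Finset.sum_eq_single 0]
  · exact Pi.single_eq_same _ _
  · intro b _ hb; exact Pi.single_eq_of_ne hb _
  · intro h; exact absurd (Finset.mem_univ _) h

/-- the cokernel splits as `ℤ × K(G)` -/
noncomputable def split (hM : ∀ i, M i ≠ 0)
    (hspan : Submodule.span (ZMod 2) (Set.range M) = ⊤) : Coker M ≃ₗ[ℤ] ℤ × Sand M where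
  toFun x := (degb hM x, ⟨x - degb hM x • pt M, (mem_tors hM hspan _).2 (by
    rw [map_sub, map_smul, degb_pt, smul_eq_mul, mul_one, sub_self])⟩)
  map_add' x y := by
    refine Prod.ext (map_add _ _ _) (Subtype.ext ?_)
    simp only [map_add, add_smul, Prod.snd_add, Submodule.coe_add]
    abel
  map_smul' a x := by
    refine Prod.ext (map_smul _ _ _) (Subtype.ext ?_)
    simp only [map_smul, RingHom.id_apply, Prod.smul_snd, Submodule.coe_smul, smul_sub, smul_assoc]
  invFun p := p.1 • pt M + (p.2 : Coker M)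
  left_inv x := by
    simp
  right_inv p := by
    obtain ⟨m, k⟩ := p
    have hk : degb hM (k : Coker M) = 0 := (mem_tors hM hspan _).1 k.2
    have h1 : degb hM (m • pt M + (k : Coker M)) = m := by
      rw [map_add, map_smul, degb_pt, hk, smul_eq_mul, mul_one, add_zero]
    refine Prod.ext h1 (Subtype.ext ?_)
    change (m • pt M + (k : Coker M)) - degb hM (m • pt M + (k : Coker M)) • pt M = k
    rw [h1]
    abel

lemma sand_finite (M : Fin n → V r) : Finite (Sand M) := by
  have h1 : Module.Finite ℤ (Sand M) := inferInstance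
  exact Module.finite_of_fg_torsion _ (Submodule.torsion_isTorsion)

lemma finrank_coker (hM : ∀ i, M i ≠ 0) (hspan : Submodule.span (ZMod 2) (Set.range M) = ⊤) :
    finrank (ZMod 2) (ZMod 2 ⊗[ℤ] Coker M) = 1 + dM M := by
  have e1 : ZMod 2 ⊗[ℤ] Coker M ≃ₗ[ZMod 2] ZMod 2 ⊗[ℤ] (ℤ × Sand M) :=
    TensorProduct.AlgebraTensorModule.congr (LinearEquiv.refl (ZMod 2) (ZMod 2)) (split hM hspan)
  have e2 : ZMod 2 ⊗[ℤ] (ℤ × Sand M) ≃ₗ[ZMod 2] (ZMod 2 ⊗[ℤ] ℤ) × (ZMod 2 ⊗[ℤ] Sand M) :=
    TensorProduct.prodRight ℤ (ZMod 2) (ZMod 2) ℤ (Sand M)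
  have e3 : ZMod 2 ⊗[ℤ] ℤ ≃ₗ[ZMod 2] ZMod 2 := TensorProduct.AlgebraTensorModule.rid ℤ (ZMod 2) (ZMod 2)
  have i1 : Module.Free (ZMod 2) (ZMod 2 ⊗[ℤ] Sand M) := Module.Free.of_divisionRing _ _
  have i2 : Module.Free (ZMod 2) (ZMod 2 ⊗[ℤ] ℤ) := Module.Free.of_divisionRing _ _
  have i3 : Module.Finite (ZMod 2) (ZMod 2 ⊗[ℤ] Sand M) := Module.Finite.base_change _ _ _
  have i4 : Module.Finite (ZMod 2) (ZMod 2 ⊗[ℤ] ℤ) := Module.Finite.base_change _ _ _
  rw [(e1.trans e2).finrank_eq, finrank_prod, e3.finrank_eq, finrank_self]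
  rfl

/-- the Laplacian modulo `2` -/
def lap2 (M : Fin n → V r) : Matrix (V r) (V r) (ZMod 2) := (lap M).map (Int.cast : ℤ → ZMod 2)

lemma finrank_coker' (M : Fin n → V r) :
    finrank (ZMod 2) (ZMod 2 ⊗[ℤ] Coker M) + (lap2 M).rank = 2 ^ r := by
  let f : (V r → ℤ) →ₗ[ℤ] (V r → ℤ) := (lap M).mulVecLin
  let g : (V r → ℤ) →ₗ[ℤ] Coker M := Submodule.mkQ _
  have hg : Function.Surjective g := Submodule.mkQ_surjective _
  have hex : Function.Exact f g := by
    intro x
    change g x = 0 ↔ _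
    rw [← LinearMap.mem_ker, Submodule.ker_mkQ]
    rfl
  let F := f.baseChange (ZMod 2)
  let G := g.baseChange (ZMod 2)
  have hG : Function.Surjective G := LinearMap.lTensor_surjective (ZMod 2) hg
  have hEx : Function.Exact F G := lTensor_exact (ZMod 2) hex hg
  have h1 : LinearMap.ker G = LinearMap.range F := by
    ext x
    rw [LinearMap.mem_ker]
    exact hEx x
  have e : ZMod 2 ⊗[ℤ] (V r → ℤ) ≃ₗ[ZMod 2] (V r → ZMod 2) :=
    TensorProduct.piScalarRight ℤ (ZMod 2) (ZMod 2) (V r)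
  have hcomp : (TensorProduct.piScalarRight ℤ (ZMod 2) (ZMod 2) (V r)).toLinearMap ∘ₗ F =
      (lap2 M).mulVecLin ∘ₗ (TensorProduct.piScalarRight ℤ (ZMod 2) (ZMod 2) (V r)).toLinearMap := by
    refine TensorProduct.AlgebraTensorModule.ext fun c x => ?_
    funext w
    simp only [LinearMap.comp_apply, LinearEquiv.coe_coe, F, LinearMap.baseChange_tmul,
      TensorProduct.piScalarRight_apply, TensorProduct.piScalarRightHom_tmul, Matrix.mulVecLin_apply,
      f]
    simp only [Matrix.mulVec, dotProduct, lap2, Matrix.map_apply, zsmul_eq_mul, Int.cast_sum,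
      Int.cast_mul, Finset.sum_mul, mul_assoc]
  have h2 : finrank (ZMod 2) (LinearMap.range F) = (lap2 M).rank := by
    have h3 : Submodule.map (TensorProduct.piScalarRight ℤ (ZMod 2) (ZMod 2) (V r)).toLinearMap
        (LinearMap.range F) = LinearMap.range (lap2 M).mulVecLin := by
      rw [← LinearMap.range_comp, hcomp, LinearMap.range_comp, LinearEquiv.range,
        Submodule.map_top]
    have h4 := LinearEquiv.finrank_map_eq
      (TensorProduct.piScalarRight ℤ (ZMod 2) (ZMod 2) (V r)) (LinearMap.range F)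
    rw [← h4]
    unfold Matrix.rank
    rw [← h3]
  have h5 := LinearMap.finrank_range_add_finrank_ker G
  rw [LinearMap.range_eq_top.2 hG, finrank_top, h1, h2, e.finrank_eq, finrank_pi, card_V] at h5
  exact h5

lemma dM_eq (hM : ∀ i, M i ≠ 0) (hspan : Submodule.span (ZMod 2) (Set.range M) = ⊤) :
    1 + dM M + (lap2 M).rank = 2 ^ r := by
  rw [← finrank_coker hM hspan, finrank_coker']

end Pool.Agent.Q209.SP
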