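import Mathlib
import Pool.Agent.Q209.SP.Coker

/-!
# The rank of the Laplacian modulo 2, and valuations of the eigenvalues
-/

set_option autoImplicit false
set_option linter.unusedSectionVars false

namespace Pool.Agent.Q209.SP

open Module

variable {r n : ℕ} {M : Fin n → V r}

lemma vadd_eq_iff (w w' u : V r) : w + u = w' ↔ u = w + w' := by
  constructor
  · rintro rfl
    rw [← add_assoc, vadd_self, zero_add]
  · rintro rfl
    rw [← add_assoc, vadd_self, zero_add]

/-- the entries of the Laplacian modulo `2` -/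
def aa (M : Fin n → V r) (u : V r) : ZMod 2 := if u = 0 then (n : ZMod 2) else (mult M u : ZMod 2)

lemma lap2_apply (w w' : V r) : lap2 M w w' = aa M (w + w') := by
  unfold lap2 aa lap
  rw [Matrix.map_apply, Matrix.of_apply]
  have h0 : w + w' = 0 ↔ w = w' := by
    have := vadd_eq_iff w w' 0
    rw [add_zero] at this
    rw [this]; exact eq_comm
  by_cases h : w = w'
  · rw [if_pos h, if_pos (h0.2 h)]; push_cast; rfl
  · rw [if_neg h, if_neg (fun hh => h (h0.1 hh))]
    unfold mult
    have h1 : (Finset.univ.filter fun i => w + M i = w') =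
        Finset.univ.filter fun i => M i = w + w' :=
      Finset.filter_congr fun i _ => vadd_eq_iff w w' (M i)
    rw [h1]
    push_cast
    generalize (((Finset.univ.filter fun i => M i = w + w').card : ℕ) : ZMod 2) = a
    revert a; decide

/-- an alternating Gram matrix over `F_2` has even rank -/
lemma even_rank_of_alt {ι : Type} [Fintype ι] [DecidableEq ι] (B : Matrix ι ι (ZMod 2))
    (hs : ∀ i j, B i j = B j i) (hd : ∀ i, B i i = 0) : Even B.rank := by
  let β : LinearMap.BilinForm (ZMod 2) (ι → ZMod 2) :=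
    (dotProductEquiv (ZMod 2) ι).toLinearMap ∘ₗ B.mulVecLin
  have hβ : ∀ x y, β x y = ∑ i, ∑ j, B i j * x j * y i := by
    intro x y
    change dotProduct (B.mulVec x) y = _
    unfold dotProduct Matrix.mulVec dotProduct
    exact Finset.sum_congr rfl fun i _ => by rw [Finset.sum_mul]
  have halt : β.IsAlt := by
    intro x
    rw [hβ, ← Finset.sum_product']
    refine Finset.sum_involution (fun p _ => (p.2, p.1)) ?_ ?_ ?_ ?_
    · rintro ⟨i, j⟩ _
      change B i j * x j * x i + B j i * x i * x j = 0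
      rw [hs j i]
      have : B i j * x i * x j = B i j * x j * x i := by ring
      rw [this]; exact two_ne _
    · rintro ⟨i, j⟩ _ hne heq
      have hij : j = i := congrArg Prod.fst heq
      apply hne
      change B i j * x j * x i = 0
      rw [hij, hd, zero_mul, zero_mul]
    · intro p _; exact Finset.mem_product.2 ⟨Finset.mem_univ _, Finset.mem_univ _⟩
    · intro p _; rfl
  have h1 := Pool.Agent.W295.Om.alt_even (K := ZMod 2) (finrank (ZMod 2) (ι → ZMod 2))
    (ι → ZMod 2) β halt le_rfl
  have h2 : finrank (ZMod 2) (LinearMap.range β) = B.rank := by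
    have h3 : LinearMap.range β = Submodule.map (dotProductEquiv (ZMod 2) ι).toLinearMap
        (LinearMap.range B.mulVecLin) := LinearMap.range_comp _ _
    rw [h3]
    exact LinearEquiv.finrank_map_eq (dotProductEquiv (ZMod 2) ι) (LinearMap.range B.mulVecLin)
  rwa [h2] at h1

lemma even_rank {v : V r} (hv : v ≠ 0) (he : Even (mult M v)) : Even (lap2 M).rank := by
  let B : Matrix (V r) (V r) (ZMod 2) := (lap2 M).submatrix (Equiv.refl _) (Equiv.addRight v)
  have hB : ∀ w w', B w w' = aa M (w + w' + v) := by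
    intro w w'
    change lap2 M w (w' + v) = _
    rw [lap2_apply, add_assoc]
  have h1 : B.rank = (lap2 M).rank := Matrix.rank_submatrix _ _ _
  rw [← h1]
  refine even_rank_of_alt B (fun w w' => ?_) fun w => ?_
  · rw [hB, hB, add_comm w w']
  · rw [hB, vadd_self, zero_add]
    unfold aa
    rw [if_neg hv]
    exact (ZMod.natCast_eq_zero_iff_even).2 he

lemma sum_mult (hM : ∀ i, M i ≠ 0) : ∑ u ∈ Finset.univ.erase (0 : V r), mult M u = n := by
  have h1 : ∑ u, mult M u = n := by
    unfold mult
    have := Finset.card_eq_sum_card_fiberwise (f := M) (s := Finset.univ) (t := Finset.univ)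
      (fun i _ => Finset.mem_univ _)
    rw [Finset.card_univ, Fintype.card_fin] at this
    exact this.symm
  have h0 : mult M 0 = 0 := by
    unfold mult
    rw [Finset.card_eq_zero, Finset.filter_eq_empty_iff]
    intro i _; exact hM i
  rw [← Finset.add_sum_erase Finset.univ (mult M) (Finset.mem_univ 0), h0, zero_add] at h1
  exact h1

lemma rank_one (hr : 1 ≤ r) (hM : ∀ i, M i ≠ 0) (ho : ∀ u : V r, u ≠ 0 → Odd (mult M u)) :
    (lap2 M).rank = 1 := by
  have haa : ∀ u, aa M u = 1 := by
    intro u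
    unfold aa
    split_ifs with h
    · rw [← sum_mult hM]
      push_cast
      have h1 : ∀ u ∈ Finset.univ.erase (0 : V r), ((mult M u : ℕ) : ZMod 2) = 1 := by
        intro u hu
        exact (ZMod.natCast_eq_one_iff_odd).2 (ho u (Finset.ne_of_mem_erase hu))
      rw [Finset.sum_congr rfl h1, Finset.sum_const, Finset.card_erase_of_mem (Finset.mem_univ _),
        Finset.card_univ, card_V, nsmul_eq_mul, mul_one]
      refine (ZMod.natCast_eq_one_iff_odd).2 ?_
      exact Nat.Even.sub_odd (Nat.one_le_two_pow) ((Nat.even_pow.2 ⟨even_two, by omega⟩)) odd_one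
    · exact (ZMod.natCast_eq_one_iff_odd).2 (ho u h)
  have hrange : LinearMap.range (lap2 M).mulVecLin =
      Submodule.span (ZMod 2) {fun _ : V r => (1 : ZMod 2)} := by
    ext x
    rw [Submodule.mem_span_singleton]
    constructor
    · rintro ⟨y, rfl⟩
      refine ⟨∑ w, y w, ?_⟩
      funext w
      rw [Matrix.mulVecLin_apply, Pi.smul_apply, smul_eq_mul, mul_one]
      change _ = ∑ w', lap2 M w w' * y w'
      exact Finset.sum_congr rfl fun w' _ => by rw [lap2_apply, haa, one_mul]
    · rintro ⟨a, rfl⟩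
      refine ⟨Pi.single 0 a, ?_⟩
      funext w
      rw [Matrix.mulVecLin_apply, Pi.smul_apply, smul_eq_mul, mul_one]
      change ∑ w', lap2 M w w' * (Pi.single 0 a : V r → ZMod 2) w' = a
      rw [Finset.sum_eq_single 0]
      · rw [lap2_apply, haa, one_mul, Pi.single_eq_same]
      · intro b _ hb; rw [Pi.single_eq_of_ne hb, mul_zero]
      · intro h; exact absurd (Finset.mem_univ _) h
  unfold Matrix.rank
  rw [hrange]
  refine finrank_span_singleton fun h => ?_
  have := congrFun h 0
  exact one_ne_zero this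

/-- `d(M)` is odd if some multiplicity is even -/
lemma odd_dM (hr : 1 ≤ r) (hM : ∀ i, M i ≠ 0)
    (hspan : Submodule.span (ZMod 2) (Set.range M) = ⊤)
    {v : V r} (hv : v ≠ 0) (he : Even (mult M v)) : Odd (dM M) := by
  have h1 := dM_eq hM hspan
  have h2 := even_rank hv he
  have h3 : Even (2 ^ r) := Nat.even_pow.2 ⟨even_two, by omega⟩
  rw [← h1, Nat.even_add] at h3
  have h4 : Even (1 + dM M) := h3.2 h2
  rw [Nat.even_add] at h4
  rcases Nat.even_or_odd (dM M) with h | h
  · exact absurd (h4.2 h) (by decide)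
  · exact h

/-- `d(M) = 2^r - 2` if all multiplicities are odd -/
lemma dM_all_odd (hr : 1 ≤ r) (hM : ∀ i, M i ≠ 0)
    (hspan : Submodule.span (ZMod 2) (Set.range M) = ⊤)
    (ho : ∀ u : V r, u ≠ 0 → Odd (mult M u)) : dM M = 2 ^ r - 2 := by
  have h1 := dM_eq hM hspan
  rw [rank_one hr hM ho] at h1
  omega

/-- the multiplicities from the eigenvalues -/
lemma mult_of_lam {v : V r} (hv : v ≠ 0) :
    ∑ u, ch u v * lam M u = -(2 ^ r * (mult M v : ℤ)) := by
  unfold lam
  have h1 : ∀ u, ch u v * ((n : ℤ) - ∑ i, ch u (M i)) =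
      n * ch u v - ∑ i, ch u v * ch u (M i) := by
    intro u; rw [mul_sub, Finset.mul_sum]; ring
  rw [Finset.sum_congr rfl fun u _ => h1 u, Finset.sum_sub_distrib, ← Finset.mul_sum, sum_ch,
    if_neg hv, mul_zero, zero_sub, Finset.sum_comm]
  rw [Finset.sum_congr rfl fun i _ => sum_ch_mul v (M i)]
  congr 1
  unfold mult
  rw [Finset.card_filter]
  push_cast
  rw [Finset.mul_sum]
  refine Finset.sum_congr rfl fun i _ => ?_
  by_cases h : v = M i
  · rw [if_pos h, if_pos h.symm, mul_one]
  · rw [if_neg h, if_neg (fun hh => h hh.symm), mul_zero]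

/-- equal valuations force all multiplicities to be odd -/
lemma all_odd_of_val (hr : 1 ≤ r) (hM : Adm M)
    (hval : ∀ u u' : V r, u ≠ 0 → u' ≠ 0 → padicValInt 2 (lam M u) = padicValInt 2 (lam M u')) :
    ∀ u : V r, u ≠ 0 → Odd (mult M u) := by
  obtain ⟨hne, hspan, hgcd⟩ := hM
  let u0 : V r := Pi.single ⟨0, hr⟩ 1
  have hu0 : u0 ≠ 0 := by
    intro h
    have := congrFun h ⟨0, hr⟩
    simp only [u0, Pi.single_eq_same, Pi.zero_apply] at this
    exact one_ne_zero this
  set k := padicValInt 2 (lam M u0) with hk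
  have hfac : ∀ u : V r, u ≠ 0 → ∃ o : ℤ, Odd o ∧ lam M u = 2 ^ k * o := by
    intro u hu
    have hl := lam_ne_zero hspan hu
    have h1 : padicValInt 2 (lam M u) = k := hval u u0 hu hu0
    obtain ⟨o, ho⟩ := (padicValInt_dvd (p := 2) (lam M u))
    rw [h1] at ho
    refine ⟨o, ?_, ho⟩
    by_contra hodd
    rw [Int.not_odd_iff_even] at hodd
    obtain ⟨t, ht⟩ := hodd
    have h2 : ((2 : ℕ) : ℤ) ^ (k + 1) ∣ lam M u := ⟨t, by rw [ho, ht, pow_succ]; ring⟩
    have h3 := (padicValInt_dvd_iff (p := 2) (k + 1) (lam M u)).1 h2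
    rcases h3 with h | h
    · exact hl h
    · rw [h1] at h; omega
  choose! o ho using hfac
  have hkey : ∀ v : V r, v ≠ 0 → ∃ t : ℤ, Odd t ∧ 2 ^ r * (mult M v : ℤ) = 2 ^ k * t := by
    intro v hv
    have h1 := mult_of_lam (M := M) hv
    rw [← Finset.add_sum_erase Finset.univ (fun u => ch u v * lam M u) (Finset.mem_univ 0),
      lam_zero, mul_zero, zero_add] at h1
    refine ⟨-∑ u ∈ Finset.univ.erase (0 : V r), ch u v * o u, ?_, ?_⟩
    · rw [← ZMod.intCast_eq_one_iff_odd]
      push_cast
      have h2 : ∀ u ∈ Finset.univ.erase (0 : V r), ((ch u v : ℤ) : ZMod 2) * ((o u : ℤ) : ZMod 2) = 1 := by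
        intro u hu
        rw [ZMod.intCast_eq_one_iff_odd.2 (ho u (Finset.ne_of_mem_erase hu)).1, mul_one]
        rcases ch_sq u v with h | h <;> rw [h] <;> decide
      rw [Finset.sum_congr rfl h2, Finset.sum_const, Finset.card_erase_of_mem (Finset.mem_univ _),
        Finset.card_univ, card_V, nsmul_eq_mul, mul_one,
        (ZMod.natCast_eq_one_iff_odd).2 (Nat.Even.sub_odd (Nat.one_le_two_pow)
          ((Nat.even_pow.2 ⟨even_two, by omega⟩)) odd_one)]
      decide
    · rw [mul_neg, Finset.mul_sum]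
      have h2 : ∀ u ∈ Finset.univ.erase (0 : V r), ch u v * lam M u = 2 ^ k * (ch u v * o u) := by
        intro u hu
        rw [(ho u (Finset.ne_of_mem_erase hu)).2]; ring
      rw [← Finset.sum_congr rfl h2, h1, neg_neg]
  intro v hv
  by_contra hodd
  rw [Nat.not_odd_iff_even] at hodd
  obtain ⟨a, ha⟩ := hodd
  -- `r + 1 ≤ k`
  have hrk : r + 1 ≤ k := by
    obtain ⟨t, ht, hvt⟩ := hkey v hv
    by_contra hlt
    push Not at hlt
    obtain ⟨b, hb⟩ := ht
    have h1 : (2 : ℤ) ^ k * (2 ^ (r - k) * (2 * a)) = 2 ^ k * t := by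
      rw [← hvt, ha, ← mul_assoc, ← pow_add]
      rw [show k + (r - k) = r by omega]
      push_cast; ring
    have h2 := mul_left_cancel₀ (pow_ne_zero k (two_ne_zero)) h1
    have h3 : 2 * (2 ^ (r - k) * (a : ℤ)) = 2 * b + 1 := by rw [← hb, ← h2]; ring
    omega
  have hall : ∀ u : V r, 2 ∣ mult M u := by
    intro u
    by_cases hu : u = 0
    · subst hu
      have h0 : mult M 0 = 0 := by
        unfold mult
        rw [Finset.card_eq_zero, Finset.filter_eq_empty_iff]
        intro i _; exact hne i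
      rw [h0]; exact dvd_zero _
    · obtain ⟨t, _, hut⟩ := hkey u hu
      have h1 : (2 : ℤ) ^ r * (mult M u : ℤ) = 2 ^ r * (2 * (2 ^ (k - r - 1) * t)) := by
        rw [hut]
        conv_lhs => rw [show k = r + 1 + (k - r - 1) by omega, pow_add, pow_succ]
        ring
      have h2 := mul_left_cancel₀ (pow_ne_zero r (two_ne_zero)) h1
      have h3 : ((2 : ℕ) : ℤ) ∣ (mult M u : ℤ) := ⟨_, h2⟩
      exact_mod_cast h3
  have h4 : 2 ∣ Finset.univ.gcd (mult M) := Finset.dvd_gcd fun u _ => hall u
  rw [hgcd] at h4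
  exact absurd h4 (by decide)

end Pool.Agent.Q209.SP
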